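import Pool.Agent.H705.GB.Stm

/-! # The gcd recursion for Goldbach pairs: one level which is not rough -/

set_option autoImplicit false

namespace Pool.Agent.H484.GB

open Pool.Agent.H705.GB

theorem T_NXT (hFLB : P_FLB) (hJMP : P_JMP) : P_NXT := by
  intro z B N T H L K j n c y y' hglob hok hR hy hy'
  obtain ⟨-, -, -, hrun⟩ := hFLB
  obtain ⟨hz1, hTB, hN⟩ := hglob
  obtain ⟨hc1, hn1, hcN, hT, hH⟩ := hok
  -- the prime
  obtain ⟨p, hp, hpz, hcase⟩ : ∃ p : ℕ, p.Prime ∧ p ≤ z ∧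
      (p ^ 2 ≤ c ∧ p ∣ y ∨ p ^ 2 ≤ 2 * N - c ∧ p ∣ y') := by
    unfold R r at hR
    rw [not_and_or] at hR
    rcases hR with h | h
    · push Not at h
      obtain ⟨p, h1, h2, h3, h4⟩ := h
      exact ⟨p, h1, h2, Or.inl ⟨h3, h4⟩⟩
    · push Not at h
      obtain ⟨p, h1, h2, h3, h4⟩ := h
      exact ⟨p, h1, h2, Or.inr ⟨h3, h4⟩⟩
  have hp2 : p ≠ 2 := by
    rintro rfl
    rcases hcase with ⟨_, h⟩ | ⟨_, h⟩ <;> omega
  obtain ⟨j1, j2, j3, j4, j5⟩ := hJMP N c y y' n p hn1 hp hp2 hcase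
  obtain ⟨m, hm⟩ : ∃ m : ℕ, m = jm N n c y y' := ⟨_, rfl⟩
  obtain ⟨g, hg⟩ : ∃ g : ℕ, g = jp N n c y y' := ⟨_, rfl⟩
  have hgG : g = G N c m y y' := by rw [hg, hm]; rfl
  have hnt : nt N n c y y' = m + 1 := by rw [hm]; rfl
  have hnl : nl N n c y y' = min (c - 1) (c + 1 - g) := by rw [hg]; rfl
  rw [← hm] at j1 j2 j3 j5
  rw [← hg] at j4 j5
  rw [← hg]
  -- sizes
  obtain ⟨W, hW⟩ : ∃ W : ℕ, W = 2 * z + 1 := ⟨_, rfl⟩
  rw [← hW, Nat.succ_mul] at hT
  have h3pos : 1 ≤ 3 ^ j := Nat.one_le_pow _ _ (by norm_num)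
  have hH1 : (N - c) + (K + 1) * B + T ≤ H := by
    calc (N - c) + (K + 1) * B + T = 1 * ((N - c) + (K + 1) * B + T) := by ring
      _ ≤ 3 ^ j * ((N - c) + (K + 1) * B + T) := Nat.mul_le_mul_right _ h3pos
      _ ≤ H := hH
  have hKB : (K + 1) * B = K * B + B := by ring
  have hmz : m + 1 ≤ n + 2 * z := by omega
  have hmT : m + 1 + K * W ≤ T := by omega
  have hgle : g ≤ m + 2 * (N - c) := by
    rcases j5 with ⟨_, _, h⟩ | ⟨_, _, h⟩
    · omega
    · exact Nat.le_of_dvd (by omega) h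
  have hgodd : g % 2 = 1 := by
    have key : ∀ v : ℕ, v % 2 = 1 → g ∣ v → g % 2 = 1 := by
      intro v hv hd
      obtain ⟨q, hq⟩ := hd
      by_contra h0
      have h2 : g % 2 = 0 := by omega
      have h3 : (g * q) % 2 = 0 := by rw [Nat.mul_mod, h2]; simp
      omega
    rcases j5 with ⟨_, h, _⟩ | ⟨_, h, _⟩
    · exact key y hy h
    · exact key y' hy' h
  have hmgc : m + g + 2 ≤ c := by omega
  have hnl' : nl N n c y y' = c + 1 - g := by rw [hnl]; omega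
  rw [hnt, hnl']
  refine ⟨?_, ?_, by omega, ?_⟩
  · intro hgB
    refine ⟨by omega, by omega, by omega, by rw [← hW]; omega, ?_⟩
    refine le_trans (Nat.mul_le_mul_left _ ?_) hH
    omega
  · intro hgB hj
    refine ⟨by omega, by omega, by omega, by rw [← hW]; omega, ?_⟩
    have hmodd : g ≤ m + 2 * (N - c) := hgle
    have h1 : (N - (c + 1 - g)) + K * B + T ≤ 3 * ((N - c) + (K + 1) * B + T) := by
      rw [hKB]
      generalize K * B = KB at *
      omega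
    obtain ⟨i, rfl⟩ : ∃ i, j = i + 1 := ⟨j - 1, by omega⟩
    calc 3 ^ (i + 1 - 1) * ((N - (c + 1 - g)) + K * B + T)
        ≤ 3 ^ (i + 1 - 1) * (3 * ((N - c) + (K + 1) * B + T)) := Nat.mul_le_mul_left _ h1
      _ = 3 ^ (i + 1) * ((N - c) + (K + 1) * B + T) := by
          rw [Nat.add_sub_cancel, pow_succ]; ring
      _ ≤ H := hH
  · intro x hx hx'
    have h1 : fl x N n c = fl x N (n + (m - n)) c := by
      apply hrun x N n c (m - n) (by omega)
      intro i hi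
      rw [hx, hx']
      exact j3 (n + i) (by omega) (by omega)
    have h2 : n + (m - n) = m := by omega
    rw [h1, h2, fl, dif_neg (by omega), hx, hx', ← hgG]
    congr 1
    omega

end Pool.Agent.H484.GB
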